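import Pool.Agent.helper82.CH.SpecN

/-!
# Project CH (MP_2e0e07_nt), row NCM (helper81)
-/

set_option autoImplicit false

open NumberField Complex Pool.Agent.UN

namespace Pool.Agent.CH

theorem NCM_mem {F : Type} [Field F] [NumberField F] {k : ℕ} {a : Ideal (𝓞 F)} :
    a ∈ idl F k ↔ Ideal.absNorm a = k := by
  unfold idl
  rw [Set.Finite.mem_toFinset]
  exact Iff.rfl

theorem NCM_bot {F : Type} [Field F] [NumberField F] : (⊤ : Ideal (𝓞 F)) ≠ ⊥ := top_ne_bot

theorem NCM_Lam {F : Type} [Field F] [NumberField F] : Lam (⊥ : Ideal (𝓞 F)) = 0 := by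
  unfold Lam
  rw [if_neg]
  intro h
  exact h.ne_zero rfl

theorem NCM : NCM_stmt := by
  intro F _ _ m ψ
  have hcm : CM (nch F ψ) := by
    refine ⟨?_, ?_, ?_, ?_⟩
    · unfold nch
      rw [if_pos rfl]
    · unfold nch
      rw [if_neg NCM_bot, Ideal.absNorm_top, Nat.cast_one, map_one]
    · intro a b
      unfold nch
      by_cases ha : a = ⊥
      · rw [if_pos ha, if_pos (by rw [ha, Ideal.bot_mul]), zero_mul]
      · by_cases hb : b = ⊥
        · rw [if_pos hb, if_pos (by rw [hb, Ideal.mul_bot]), mul_zero]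
        · rw [if_neg ha, if_neg hb, if_neg, map_mul, Nat.cast_mul, map_mul]
          intro h
          rcases Ideal.mul_eq_bot.1 h with h1 | h1
          · exact ha h1
          · exact hb h1
    · intro a
      unfold nch
      by_cases ha : a = ⊥
      · rw [if_pos ha, norm_zero]
        exact zero_le_one
      · rw [if_neg ha]
        exact DirichletCharacter.norm_le_one ψ _
  have htc : CM (tc F) := by
    refine ⟨?_, ?_, ?_, ?_⟩
    · unfold tc
      rw [if_pos rfl]
    · unfold tc
      rw [if_neg NCM_bot]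
    · intro a b
      unfold tc
      by_cases ha : a = ⊥
      · rw [if_pos ha, if_pos (by rw [ha, Ideal.bot_mul]), zero_mul]
      · by_cases hb : b = ⊥
        · rw [if_pos hb, if_pos (by rw [hb, Ideal.mul_bot]), mul_zero]
        · rw [if_neg ha, if_neg hb, if_neg, mul_one]
          intro h
          rcases Ideal.mul_eq_bot.1 h with h1 | h1
          · exact ha h1
          · exact hb h1
    · intro a
      unfold tc
      by_cases ha : a = ⊥
      · rw [if_pos ha, norm_zero]
        exact zero_le_one
      · rw [if_neg ha, norm_one]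
  refine ⟨hcm, ?_, ?_, htc, ?_⟩
  · intro k hk
    unfold cc
    have h1 : ∀ a ∈ idl F k, nch F ψ a = ψ ((k : ℕ) : ZMod m) := by
      intro a ha
      have h2 := NCM_mem.1 ha
      unfold nch
      rw [if_neg, h2]
      intro h3
      rw [h3, Ideal.absNorm_bot] at h2
      exact hk h2.symm
    rw [Finset.sum_congr rfl h1, Finset.sum_const, nsmul_eq_mul, mul_comm]
    congr 2
    have h4 : nd F k = Nat.card ({I : Ideal (𝓞 F) | Ideal.absNorm I = k} : Set (Ideal (𝓞 F))) := rfl
    rw [h4, Nat.card_coe_set_eq,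
      Set.ncard_eq_toFinset_card _ (Ideal.finite_setOfPred_absNorm_eq (S := 𝓞 F) k)]
    rfl
  · intro k
    unfold zz
    rw [Complex.ofReal_sum, Finset.mul_sum]
    refine Finset.sum_congr rfl fun a ha => ?_
    by_cases h3 : a = ⊥
    · rw [h3, NCM_Lam, Complex.ofReal_zero, mul_zero, mul_zero]
    · unfold nch
      rw [if_neg h3, NCM_mem.1 ha]
  · intro k
    unfold zz
    rw [Complex.ofReal_sum]
    refine Finset.sum_congr rfl fun a _ => ?_
    by_cases h3 : a = ⊥
    · rw [h3, NCM_Lam, Complex.ofReal_zero, mul_zero]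
    · unfold tc
      rw [if_neg h3, one_mul]

end Pool.Agent.CH
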